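import Pool.Agent.N332.SK.Defs5
import Pool.Agent.N645.LS.L7a
import Pool.Agent.N263.LS.KS9
import Pool.Agent.N97.LS.KS8

set_option autoImplicit false

/-! # Project LS (helper332), KT2: the tenth moment in functions -/

namespace Pool.Agent.N945.LS

open Finset Pool.Agent.H384R3.SPk Pool.Agent.N356.SP Pool.Agent.N332.SK Pool.Agent.N645.LS
open Pool.Agent.N263.LS

variable {m : ℕ} {C : Finset (ZMod m)} {θ : ZMod m → ZMod m → ℝ} {g f : ℤ →₀ ℝ}

/-- KT2 with the statement KT1 (`L_f10`) as hypothesis -/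
theorem star10_of
    (HL : ∀ {m : ℕ} {K : Cone (ZMod m) C(ℝ, ℂ)} {L : C(ℝ, ℂ) →ₗ[ℝ] ℝ} {C : Finset (ZMod m)}
      {θ : ZMod m → ZMod m → ℝ} {φ : ZMod m → C(ℝ, ℂ)} (_ : IsFun K L) (_ : GoodC C θ)
      (_ : ∀ c, φ c ∈ K.P c),
      63 / 8 * L (muA C φ ^ 5) + 140 / 9 * L (muA C φ ^ 3 * wA C θ φ) +
        32 / 15 * L (muA C φ * wA C θ φ ^ 2) ≤ L (fA C φ ^ 10))
    (h : GoodC C θ) (hf0 : ∀ n, 0 ≤ f n) (hf : ∀ n ∈ f.support, ((n : ℤ) : ZMod m) ∈ C) :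
    63 / 8 * (∫ x in (0:ℝ)..1, muf C f x ^ 5) +
      140 / 9 * (∫ x in (0:ℝ)..1, muf C f x ^ 3 * wf C θ f x) +
      32 / 15 * (∫ x in (0:ℝ)..1, muf C f x * wf C θ f x ^ 2) ≤ Mc 5 f := by
  obtain ⟨K, L, hL, hLF, hex⟩ := Pool.Agent.N97.LS.exists_cone m
  choose φ hφ hφx using hex f hf0
  have key := HL hL h hφ
  have e1 : L (muA C φ ^ 5) = ∫ x in (0:ℝ)..1, muf C f x ^ 5 := by
    rw [hLF]
    refine re_int fun x => ?_
    rw [ContinuousMap.pow_apply, muA_apply hφx, Complex.ofReal_pow]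
  have e2 : L (muA C φ ^ 3 * wA C θ φ) = ∫ x in (0:ℝ)..1, muf C f x ^ 3 * wf C θ f x := by
    rw [hLF]
    refine re_int fun x => ?_
    rw [ContinuousMap.mul_apply, ContinuousMap.pow_apply, muA_apply hφx,
      wA_apply h.neg h.even hφx, Complex.ofReal_mul, Complex.ofReal_pow]
  have e3 : L (muA C φ * wA C θ φ ^ 2) = ∫ x in (0:ℝ)..1, muf C f x * wf C θ f x ^ 2 := by
    rw [hLF]
    refine re_int fun x => ?_
    rw [ContinuousMap.mul_apply, ContinuousMap.pow_apply, muA_apply hφx,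
      wA_apply h.neg h.even hφx, Complex.ofReal_mul, Complex.ofReal_pow]
  have e4 : L (fA C φ ^ 10) = Mc 5 f := by
    rw [hLF]
    unfold Mc
    refine re_int fun x => ?_
    rw [ContinuousMap.pow_apply, fA_apply h.neg hf hφx, Complex.ofReal_pow]
  rw [e1, e2, e3, e4] at key
  exact key

end Pool.Agent.N945.LS
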